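import Pool.Agent.BKW.Stmts

set_option autoImplicit false

/-!
# Squad BKW (MP_0c1440_lc), row SMS: numbers with few primes from a given set
-/

namespace Pool.Agent.BKW.H44

/-- the finset of the numbers in question -/
def smsSet (x : ℕ) (Q : Finset ℕ) (r : ℕ) : Finset ℕ :=
  (Finset.Icc 1 x).filter (fun k => k.primeFactors ⊆ Q ∧ k.primeFactors.card ≤ r)

/-- multiplication by a prime power -/
def smsMap : ℕ × Option (ℕ × ℕ) → ℕ
  | (k, none) => k
  | (k, some (q, a)) => q ^ a * k

theorem sms_fin (x : ℕ) (Q : Finset ℕ) (r : ℕ) :
    (smsSet x Q r).card ≤ (Q.card * Nat.log 2 x + 1) ^ r := by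
  induction r with
  | zero =>
    rw [pow_zero]
    refine (Finset.card_le_card (t := {1}) ?_).trans (by simp)
    intro k hk
    rw [smsSet, Finset.mem_filter, Finset.mem_Icc] at hk
    obtain ⟨⟨h1, _⟩, _, h3⟩ := hk
    rw [Finset.mem_singleton]
    have h4 : k.primeFactors = ∅ := Finset.card_eq_zero.mp (by omega)
    rcases Nat.primeFactors_eq_empty.mp h4 with h5 | h5
    · omega
    · exact h5
  | succ r ih =>
    have hsub : smsSet x Q (r + 1) ⊆
        ((smsSet x Q r) ×ˢ (Finset.insertNone (Q ×ˢ Finset.Icc 1 (Nat.log 2 x)))).image smsMap := by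
      intro k hk
      rw [smsSet, Finset.mem_filter, Finset.mem_Icc] at hk
      obtain ⟨⟨h1, h2⟩, h3, h4⟩ := hk
      rw [Finset.mem_image]
      by_cases h5 : k.primeFactors.card ≤ r
      · refine ⟨(k, none), ?_, rfl⟩
        rw [Finset.mem_product]
        refine ⟨?_, Finset.none_mem_insertNone⟩
        rw [smsSet, Finset.mem_filter, Finset.mem_Icc]
        exact ⟨⟨h1, h2⟩, h3, h5⟩
      · have h6 : k.primeFactors.Nonempty := Finset.card_pos.mp (by omega)
        obtain ⟨q, hq⟩ := h6
        have hqp : q.Prime := Nat.prime_of_mem_primeFactors hq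
        have hqk : q ∣ k := Nat.dvd_of_mem_primeFactors hq
        have hk0 : k ≠ 0 := by omega
        have hmul : q ^ (k.factorization q) * (k / q ^ (k.factorization q)) = k :=
          Nat.ordProj_mul_ordCompl_eq_self k q
        have hk'pos : 0 < k / q ^ (k.factorization q) := by
          rcases Nat.eq_zero_or_pos (k / q ^ (k.factorization q)) with h | h
          · rw [h, mul_zero] at hmul
            omega
          · exact h
        have hpf : (k / q ^ (k.factorization q)).primeFactors = k.primeFactors.erase q := by
          have := Nat.factorization_ordCompl k q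
          rw [← Nat.support_factorization, this, Finsupp.support_erase, Nat.support_factorization]
        have hv1 : 1 ≤ k.factorization q := hqp.factorization_pos_of_dvd hk0 hqk
        have hv2 : k.factorization q ≤ Nat.log 2 x := by
          apply Nat.le_log_of_pow_le (by norm_num)
          calc 2 ^ k.factorization q ≤ q ^ k.factorization q :=
                Nat.pow_le_pow_left hqp.two_le _
            _ ≤ k := Nat.ordProj_le q hk0
            _ ≤ x := h2
        refine ⟨(k / q ^ (k.factorization q), some (q, k.factorization q)), ?_, hmul⟩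
        rw [Finset.mem_product]
        constructor
        · rw [smsSet, Finset.mem_filter, Finset.mem_Icc]
          refine ⟨⟨hk'pos, (Nat.div_le_self _ _).trans h2⟩, ?_, ?_⟩
          · show (k / q ^ (k.factorization q)).primeFactors ⊆ Q
            rw [hpf]
            exact (Finset.erase_subset _ _).trans h3
          · show (k / q ^ (k.factorization q)).primeFactors.card ≤ r
            rw [hpf, Finset.card_erase_of_mem hq]
            omega
        · apply Finset.some_mem_insertNone.mpr
          rw [Finset.mem_product, Finset.mem_Icc]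
          exact ⟨h3 hq, hv1, hv2⟩
    refine (Finset.card_le_card hsub).trans (Finset.card_image_le.trans ?_)
    rw [Finset.card_product, Finset.card_insertNone, Finset.card_product, Nat.card_Icc,
      Nat.add_sub_cancel, pow_succ]
    exact Nat.mul_le_mul_right _ ih

theorem sms : SmsStmt := by
  intro x r Q
  have h : {k : ℕ | 1 ≤ k ∧ k ≤ x ∧ k.primeFactors ⊆ Q ∧ k.primeFactors.card ≤ r} =
      ((smsSet x Q r : Finset ℕ) : Set ℕ) := by
    ext k
    simp only [smsSet, Set.mem_ofPred_eq, Finset.coe_filter, Finset.mem_Icc]
    tauto
  rw [h, Set.ncard_coe_finset]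
  exact sms_fin x Q r

end Pool.Agent.BKW.H44
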