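import Pool.Agent.BKW.Stmts

set_option autoImplicit false

/-!
# Squad BKW (MP_0c1440_lc), row TWN: the key relation
-/

namespace Pool.Agent.BKW.H44

theorem twn : TwnStmt := by
  intro n m p hn hm hp hpn hpn2 h1 h2
  have hpm : p ∣ m := (h1 p hp).mpr hpn
  obtain ⟨e, h', hh', hmeq⟩ := Nat.exists_eq_pow_mul_and_not_dvd (by omega : m ≠ 0) p hp.ne_one
  have hn0 : p * (n / p) = n := Nat.mul_div_cancel' hpn
  have hph : ¬ p ∣ n / p := by
    intro hd
    apply hpn2
    rw [pow_two, ← hn0]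
    exact Nat.mul_dvd_mul_left p hd
  have he : 1 ≤ e := by
    rcases Nat.eq_zero_or_pos e with he | he
    · exfalso
      subst he
      rw [pow_zero, one_mul] at hmeq
      exact hh' (hmeq ▸ hpm)
    · exact he
  have hh0 : h' ≠ 0 := by
    rintro rfl
    exact hh' (dvd_zero p)
  have hnp0 : n / p ≠ 0 := by
    intro h0
    rw [h0] at hph
    exact hph (dvd_zero p)
  refine ⟨e, h', he, Nat.pos_of_ne_zero hh0, hmeq, ?_, ?_⟩
  · ext q
    rw [Nat.mem_primeFactors, Nat.mem_primeFactors]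
    constructor
    · rintro ⟨hq, hd, _⟩
      refine ⟨hq, ?_, hnp0⟩
      have hqm : q ∣ m := by
        rw [hmeq]
        exact hd.mul_left _
      have hqn : q ∣ n := (h1 q hq).mp hqm
      rw [← hn0] at hqn
      rcases (hq.dvd_mul).mp hqn with hqp | hqh
      · exfalso
        have : q = p := (Nat.prime_dvd_prime_iff_eq hq hp).mp hqp
        subst this
        exact hh' hd
      · exact hqh
    · rintro ⟨hq, hd, _⟩
      refine ⟨hq, ?_, hh0⟩
      have hqn : q ∣ n := by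
        rw [← hn0]
        exact hd.mul_left _
      have hqm : q ∣ m := (h1 q hq).mpr hqn
      rw [hmeq] at hqm
      rcases (hq.dvd_mul).mp hqm with hqp | hqh
      · exfalso
        have : q = p := (Nat.prime_dvd_prime_iff_eq hq hp).mp (hq.dvd_of_dvd_pow hqp)
        subst this
        exact hph hd
      · exact hqh
  · intro q hq hqn
    have hqm := h2 q hq hqn
    have a1 : (q : ℤ) ∣ ((p : ℤ) * ((n / p : ℕ) : ℤ)) - 1 := by
      have : ((p : ℤ) * ((n / p : ℕ) : ℤ)) - 1 = ((n - 1 : ℕ) : ℤ) := by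
        rw [Nat.cast_sub (by omega : 1 ≤ n)]
        have : (n : ℤ) = ((p * (n / p) : ℕ) : ℤ) := by rw [hn0]
        rw [this]
        push_cast
        ring
      rw [this]
      exact_mod_cast hqn
    have a2 : (q : ℤ) ∣ ((p : ℤ) ^ e * (h' : ℤ)) - 1 := by
      have : ((p : ℤ) ^ e * (h' : ℤ)) - 1 = ((m - 1 : ℕ) : ℤ) := by
        rw [Nat.cast_sub (by omega : 1 ≤ m)]
        rw [hmeq]
        push_cast
        ring
      rw [this]
      exact_mod_cast hqm
    have a3 : (q : ℤ) ∣ ((p : ℤ) * ((n / p : ℕ) : ℤ)) ^ e - 1 ^ e :=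
      a1.trans (sub_dvd_pow_sub_pow _ _ e)
    have a4 : (q : ℤ) ∣ (p : ℤ) ^ e * ((((n / p : ℕ) : ℤ)) ^ e - (h' : ℤ)) := by
      have : (p : ℤ) ^ e * ((((n / p : ℕ) : ℤ)) ^ e - (h' : ℤ)) =
          (((p : ℤ) * ((n / p : ℕ) : ℤ)) ^ e - 1 ^ e) - (((p : ℤ) ^ e * (h' : ℤ)) - 1) := by
        rw [mul_pow, one_pow]
        ring
      rw [this]
      exact dvd_sub a3 a2
    have hqZ : Prime (q : ℤ) := Nat.prime_iff_prime_int.mp hq
    rcases hqZ.dvd_or_dvd a4 with h5 | h5
    · exfalso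
      have h6 : (q : ℤ) ∣ (p : ℤ) := hqZ.dvd_of_dvd_pow h5
      have h7 : q ∣ p := by exact_mod_cast h6
      have h8 : q ∣ n := h7.trans hpn
      have h9 : q ∣ 1 := by
        have := (Nat.dvd_sub h8 hqn)
        have h10 : n - (n - 1) = 1 := by omega
        rwa [h10] at this
      exact hq.one_lt.ne' (Nat.dvd_one.mp h9)
    · exact h5

end Pool.Agent.BKW.H44
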